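import Pool.Agent.C4U.Stmts

set_option autoImplicit false

/-!
# Squad C4U, row STL
-/

namespace Pool.Agent.C4U.H23

open Pool.Agent.C4F (cn)

theorem ln_eq (hC : CnlStmt) {D B l : ℕ} {c : ℕ → ℕ} (hl : l ≤ D)
    (h1 : ∀ e < l, 1 ≤ c e ∧ c e ≤ B) (h2 : ∀ e, l ≤ e → c e = 0) : ln D c = l := by
  have h := hC.2.2.1 (fun e => ∀ e' < e + 1, 1 ≤ c e') D l (fun v _ => by
    constructor
    · intro h3
      by_contra h4
      have h5 := h3 v (by omega)
      rw [h2 v (by omega)] at h5
      omega
    · intro h3 e' he'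
      exact (h1 e' (by omega)).1)
  unfold ln
  rw [h]
  omega

theorem mm_eq (hC : CnlStmt) {D B m : ℕ} {c : ℕ → ℕ} (hl : ln D c ≤ D) (hm : m < ln D c)
    (h1 : c m < B) (h2 : ∀ e, m < e → e < ln D c → B ≤ c e) : mm D B c = m + 1 := by
  have h := hC.2.2.1 (fun e => ∃ e' < ln D c, e ≤ e' ∧ c e' < B) D (m + 1) (fun v _ => by
    constructor
    · rintro ⟨e', h3, h4, h5⟩
      by_contra h6
      have h7 := h2 e' (by omega) h3
      omega
    · intro h3
      exact ⟨m, hm, by omega, h1⟩)
  unfold mm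
  rw [h]
  omega

theorem stl (hC : CnlStmt) : StlStmt := by
  intro D B c hB hst
  obtain ⟨l, hl, h1, h2⟩ := hst
  have hln : ln D c = l := ln_eq hC hl h1 h2
  have hlD : ln D c ≤ D := by omega
  have h7 : ∀ e < l, c e < B → 0 < mm D B c := by
    intro e he hce
    by_contra h0
    have h3 : mm D B c = 0 := by omega
    have h4 := (hC.2.1 (fun e => ∃ e' < ln D c, e ≤ e' ∧ c e' < B) D (by
      rintro u v huv ⟨e', h5, h6, h8⟩
      exact ⟨e', h5, huv.trans h6, h8⟩)).2
    have h5 : cn (fun e => ∃ e' < ln D c, e ≤ e' ∧ c e' < B) D = 0 := h3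
    rw [h5] at h4
    exact h4 (by omega) ⟨e, by omega, Nat.zero_le _, hce⟩
  refine ⟨hlD, ?_, ?_, ?_, ?_, ?_, ?_⟩
  · rw [hln]
    exact h1
  · rw [hln]
    exact h2
  · intro n
    have h3 : ∀ e < min n l, 1 ≤ pre n c e ∧ pre n c e ≤ B := by
      intro e he
      have h4 : e < n := by omega
      unfold pre
      rw [if_pos h4]
      exact h1 e (by omega)
    have h4 : ∀ e, min n l ≤ e → pre n c e = 0 := by
      intro e he
      unfold pre
      by_cases h5 : e < n
      · rw [if_pos h5]
        exact h2 e (by omega)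
      · rw [if_neg h5]
    exact ⟨⟨min n l, by omega, h3, h4⟩, by rw [hln]; exact ln_eq hC (by omega) h3 h4⟩
  · intro G hG hlt
    rw [hln] at hlt ⊢
    have hnx : ∀ e, nx D B G c e = if e = l then 1 else c e := by
      intro e
      unfold nx
      rw [if_pos hG, hln]
    have h3 : ∀ e < l + 1, 1 ≤ nx D B G c e ∧ nx D B G c e ≤ B := by
      intro e he
      rw [hnx]
      by_cases h4 : e = l
      · rw [if_pos h4]
        exact ⟨le_refl _, hB⟩
      · rw [if_neg h4]
        exact h1 e (by omega)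
    have h4 : ∀ e, l + 1 ≤ e → nx D B G c e = 0 := by
      intro e he
      rw [hnx, if_neg (by omega)]
      exact h2 e (by omega)
    refine ⟨⟨l + 1, by omega, h3, h4⟩, ln_eq hC (by omega) h3 h4, ?_, ?_⟩
    · funext e
      unfold pre
      by_cases h5 : e < l
      · rw [if_pos h5, hnx, if_neg (by omega)]
      · rw [if_neg h5, h2 e (by omega)]
    · rw [hnx, if_pos rfl]
  · intro G hG hmm
    rw [hln]
    have h0 := (hC.2.1 (fun e => ∃ e' < ln D c, e ≤ e' ∧ c e' < B) D (by
      rintro u v huv ⟨e', h5, h6, h8⟩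
      exact ⟨e', h5, huv.trans h6, h8⟩)).1 0 hmm
    obtain ⟨e0, h3, -, h5⟩ := h0
    have hne : ((Finset.range l).filter fun e => c e < B).Nonempty :=
      ⟨e0, Finset.mem_filter.2 ⟨Finset.mem_range.2 (by omega), h5⟩⟩
    obtain ⟨m, hm, hmax⟩ := Finset.exists_max_image _ (fun e => e) hne
    obtain ⟨hml, hmB⟩ := Finset.mem_filter.1 hm
    rw [Finset.mem_range] at hml
    have hgt : ∀ e, m < e → e < l → B ≤ c e := by
      intro e h6 h7'
      by_contra h8
      have h9 := hmax e (Finset.mem_filter.2 ⟨Finset.mem_range.2 h7', by omega⟩)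
      omega
    have hmmE : mm D B c = m + 1 := mm_eq hC hlD (by omega) hmB (by rw [hln]; exact hgt)
    have hnx : ∀ e, nx D B G c e = if e < m then c e else if e = m then c e + 1 else 0 := by
      intro e
      unfold nx
      rw [if_neg hG, hmmE]
      by_cases h6 : e < m
      · rw [if_pos (by omega), if_pos h6]
      · rw [if_neg (by omega), if_neg h6]
        by_cases h7' : e = m
        · rw [if_pos (by omega), if_pos h7']
        · rw [if_neg (by omega), if_neg h7']
    have h6 : ∀ e < m + 1, 1 ≤ nx D B G c e ∧ nx D B G c e ≤ B := by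
      intro e he
      rw [hnx]
      by_cases h6 : e < m
      · rw [if_pos h6]
        exact h1 e (by omega)
      · have h8 : e = m := by omega
        rw [if_neg h6, if_pos h8, h8]
        omega
    have h8 : ∀ e, m + 1 ≤ e → nx D B G c e = 0 := by
      intro e he
      rw [hnx, if_neg (by omega), if_neg (by omega)]
    refine ⟨m, hml, hmB, hgt, ⟨m + 1, by omega, h6, h8⟩, ln_eq hC (by omega) h6 h8, ?_, ?_⟩
    · funext e
      unfold pre
      by_cases h9 : e < m
      · rw [if_pos h9, if_pos h9, hnx, if_pos h9]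
      · rw [if_neg h9, if_neg h9]
    · rw [hnx, if_neg (by omega), if_pos rfl]
  · rw [hln]
    exact h7

end Pool.Agent.C4U.H23
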